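import Mathlib

/-!
# Point configurations in convex position, their graphs, pyramids and double caps
-/

set_option autoImplicit false

namespace Pool.Agent.Q223.PG

open Module

variable {ι E F : Type*} [AddCommGroup E] [Module ℝ E] [AddCommGroup F] [Module ℝ F]

/-- every point is strictly exposed -/
def Conf (V : ι → E) : Prop := ∀ i, ∃ l : E →ₗ[ℝ] ℝ, ∀ j, j ≠ i → l (V j) < l (V i)

/-- the graph -/
def gr (V : ι → E) : SimpleGraph ι where
  Adj i j := i ≠ j ∧ ∃ l : E →ₗ[ℝ] ℝ, l (V i) = l (V j) ∧ ∀ k, k ≠ i → k ≠ j → l (V k) < l (V i)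
  symm := ⟨by
    rintro i j ⟨h, l, h1, h2⟩
    exact ⟨h.symm, l, h1.symm, fun k hk hk' => by rw [← h1]; exact h2 k hk' hk⟩⟩
  loopless := ⟨fun i h => h.1 rfl⟩

/-- the cone over a graph -/
def cone (G : SimpleGraph ι) : SimpleGraph (Option ι) where
  Adj x y := match x, y with
    | none, none => False
    | none, some _ => True
    | some _, none => True
    | some i, some j => G.Adj i j
  symm := ⟨by
    rintro (_ | i) (_ | j) h
    · exact h
    · trivial
    · trivial
    · exact G.symm.symm _ _ h⟩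
  loopless := ⟨by
    rintro (_ | i) h
    · exact h
    · exact G.loopless.irrefl i h⟩

theorem Conf.injective {V : ι → E} (h : Conf V) : Function.Injective V := by
  intro i j hij
  by_contra hne
  obtain ⟨l, hl⟩ := h i
  have := hl j (Ne.symm hne)
  rw [hij] at this
  exact lt_irrefl _ this

theorem conf_comp (V : ι → E) (f : E →ₗ[ℝ] F) (hf : Function.Injective f) :
    Conf (fun i => f (V i)) ↔ Conf V := by
  constructor
  · intro h i
    obtain ⟨l, hl⟩ := h i
    exact ⟨l.comp f, hl⟩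
  · intro h i
    obtain ⟨l, hl⟩ := h i
    obtain ⟨g, hg⟩ := f.exists_leftInverse_of_injective (LinearMap.ker_eq_bot.2 hf)
    refine ⟨l.comp g, fun j hj => ?_⟩
    have : ∀ x, g (f x) = x := fun x => by
      have := LinearMap.congr_fun hg x
      simpa using this
    simp only [LinearMap.comp_apply, this]
    exact hl j hj

theorem gr_comp (V : ι → E) (f : E →ₗ[ℝ] F) (hf : Function.Injective f) :
    gr (fun i => f (V i)) = gr V := by
  ext i j
  obtain ⟨g, hg⟩ := f.exists_leftInverse_of_injective (LinearMap.ker_eq_bot.2 hf)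
  have hgf : ∀ x, g (f x) = x := fun x => by
    have := LinearMap.congr_fun hg x
    simpa using this
  constructor
  · rintro ⟨h, l, h1, h2⟩
    exact ⟨h, l.comp f, h1, h2⟩
  · rintro ⟨h, l, h1, h2⟩
    refine ⟨h, l.comp g, ?_, ?_⟩
    · simp only [LinearMap.comp_apply, hgf]; exact h1
    · intro k hk hk'
      simp only [LinearMap.comp_apply, hgf]; exact h2 k hk hk'

/-- configuration of the pyramid -/
def pyr (V : ι → E) (a : E) : Option ι → E := fun o => o.elim a V

theorem conf_pyr {V : ι → E} (hV : Conf V) {a : E} {h : E →ₗ[ℝ] ℝ} {c : ℝ} (hc : ∀ i, h (V i) = c)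
    (ha : h a ≠ c) : Conf (pyr V a) := by
  have hac : h a - c ≠ 0 := sub_ne_zero.2 ha
  rintro (_ | i)
  · refine ⟨(h a - c) • h, ?_⟩
    rintro (_ | j) hj
    · exact absurd rfl hj
    · show (h a - c) * h (V j) < (h a - c) * h a
      rw [hc]
      have : 0 < (h a - c) * (h a - c) := mul_self_pos.2 hac
      nlinarith
  · obtain ⟨l, hl⟩ := hV i
    refine ⟨l + ((l (V i) - l a - 1) / (h a - c)) • h, ?_⟩
    rintro (_ | j) hj
    · show l a + ((l (V i) - l a - 1) / (h a - c)) * h a <
        l (V i) + ((l (V i) - l a - 1) / (h a - c)) * h (V i)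
      rw [hc]
      have : ((l (V i) - l a - 1) / (h a - c)) * (h a - c) = l (V i) - l a - 1 :=
        div_mul_cancel₀ _ hac
      linarith
    · show l (V j) + ((l (V i) - l a - 1) / (h a - c)) * h (V j) <
        l (V i) + ((l (V i) - l a - 1) / (h a - c)) * h (V i)
      rw [hc, hc]
      have := hl j (fun hji => hj (by rw [hji]))
      linarith

theorem gr_pyr {V : ι → E} (hV : Conf V) {a : E} {h : E →ₗ[ℝ] ℝ} {c : ℝ} (hc : ∀ i, h (V i) = c)
    (ha : h a ≠ c) : gr (pyr V a) = cone (gr V) := by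
  have hac : h a - c ≠ 0 := sub_ne_zero.2 ha
  have key : ∀ i, (gr (pyr V a)).Adj none (some i) := by
    intro i
    obtain ⟨l, hl⟩ := hV i
    refine ⟨by simp, l + ((l (V i) - l a) / (h a - c)) • h, ?_, ?_⟩
    · show l a + ((l (V i) - l a) / (h a - c)) * h a =
        l (V i) + ((l (V i) - l a) / (h a - c)) * h (V i)
      rw [hc]
      have : ((l (V i) - l a) / (h a - c)) * (h a - c) = l (V i) - l a :=
        div_mul_cancel₀ _ hac
      linarith
    · rintro (_ | j) hj hj'
      · exact absurd rfl hj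
      · show l (V j) + ((l (V i) - l a) / (h a - c)) * h (V j) <
          l a + ((l (V i) - l a) / (h a - c)) * h a
        rw [hc]
        have : ((l (V i) - l a) / (h a - c)) * (h a - c) = l (V i) - l a :=
          div_mul_cancel₀ _ hac
        have := hl j (fun hji => hj' (by rw [hji]))
        linarith
  ext x y
  rcases x with _ | i <;> rcases y with _ | j
  · exact ⟨fun hh => absurd rfl hh.1, fun hh => hh.elim⟩
  · exact ⟨fun _ => trivial, fun _ => key j⟩
  · exact ⟨fun _ => trivial, fun _ => (key i).symm⟩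
  · constructor
    · rintro ⟨hne, l, h1, h2⟩
      refine ⟨fun hij => hne (by rw [hij]), l, h1, fun k hk hk' => ?_⟩
      exact h2 (some k) (fun hh => hk (Option.some_injective _ hh))
        (fun hh => hk' (Option.some_injective _ hh))
    · rintro ⟨hne, l, h1, h2⟩
      refine ⟨fun hij => hne (Option.some_injective _ hij),
        l + ((l (V i) - l a - 1) / (h a - c)) • h, ?_, ?_⟩
      · show l (V i) + ((l (V i) - l a - 1) / (h a - c)) * h (V i) =
          l (V j) + ((l (V i) - l a - 1) / (h a - c)) * h (V j)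
        rw [hc, hc, h1]
      · rintro (_ | k) hk hk'
        · show l a + ((l (V i) - l a - 1) / (h a - c)) * h a <
            l (V i) + ((l (V i) - l a - 1) / (h a - c)) * h (V i)
          rw [hc]
          have : ((l (V i) - l a - 1) / (h a - c)) * (h a - c) = l (V i) - l a - 1 :=
            div_mul_cancel₀ _ hac
          linarith
        · show l (V k) + ((l (V i) - l a - 1) / (h a - c)) * h (V k) <
            l (V i) + ((l (V i) - l a - 1) / (h a - c)) * h (V i)
          rw [hc, hc]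
          have := h2 k (fun hji => hk (by rw [hji])) (fun hji => hk' (by rw [hji]))
          linarith

/-- dimension of a configuration -/
noncomputable def dm (V : ι → E) : ℕ := finrank ℝ (vectorSpan ℝ (Set.range V))

theorem dm_comp (V : ι → E) (f : E →ₗ[ℝ] F) (hf : Function.Injective f) :
    dm (fun i => f (V i)) = dm V := by
  unfold dm
  have h1 : Set.range (fun i => f (V i)) = f.toAffineMap '' Set.range V := by
    rw [← Set.range_comp]; rfl
  rw [h1, ← AffineMap.map_vectorSpan]
  exact (LinearEquiv.finrank_eq (Submodule.equivMapOfInjective f hf _)).symm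

theorem range_pyr (V : ι → E) (a : E) : Set.range (pyr V a) = insert a (Set.range V) := by
  ext x
  constructor
  · rintro ⟨_ | i, rfl⟩
    · exact Or.inl rfl
    · exact Or.inr ⟨i, rfl⟩
  · rintro (rfl | ⟨i, rfl⟩)
    · exact ⟨none, rfl⟩
    · exact ⟨some i, rfl⟩

theorem exists_height [Nonempty ι] {V : ι → E} {a : E} (ha : a ∉ affineSpan ℝ (Set.range V)) :
    ∃ (h : E →ₗ[ℝ] ℝ) (c : ℝ), (∀ i, h (V i) = c) ∧ h a ≠ c := by
  obtain ⟨i0⟩ := ‹Nonempty ι›
  have h1 : a - V i0 ∉ vectorSpan ℝ (Set.range V) := by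
    intro hmem
    apply ha
    have h2 := AffineSubspace.vadd_mem_of_mem_direction (s := affineSpan ℝ (Set.range V))
      (by rw [direction_affineSpan]; exact hmem) (mem_affineSpan ℝ (Set.mem_range_self i0))
    simpa using h2
  obtain ⟨f, hf, hk⟩ := Submodule.exists_le_ker_of_notMem h1
  refine ⟨f, f (V i0), fun i => ?_, fun hh => hf ?_⟩
  · have : V i - V i0 ∈ vectorSpan ℝ (Set.range V) :=
      vsub_mem_vectorSpan ℝ (Set.mem_range_self i) (Set.mem_range_self i0)
    have h3 := hk this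
    rw [LinearMap.mem_ker, map_sub] at h3
    linarith
  · rw [map_sub, hh, sub_self]

theorem notMem_of_height {V : ι → E} {a : E} (h : E →ₗ[ℝ] ℝ) (c : ℝ) (hc : ∀ i, h (V i) = c)
    (ha : h a ≠ c) : a ∉ affineSpan ℝ (Set.range V) := by
  intro hmem
  apply ha
  have h1 : affineSpan ℝ (Set.range V) ≤ (AffineSubspace.mk' c (⊥ : Submodule ℝ ℝ)).comap
      h.toAffineMap := by
    rw [affineSpan_le]
    rintro _ ⟨i, rfl⟩
    show h (V i) ∈ AffineSubspace.mk' c (⊥ : Submodule ℝ ℝ)
    rw [hc, AffineSubspace.mem_mk']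
    simp
  have h2 := h1 hmem
  have h3 : h a ∈ AffineSubspace.mk' c (⊥ : Submodule ℝ ℝ) := h2
  rw [AffineSubspace.mem_mk'] at h3
  simp only [vsub_eq_sub, Submodule.mem_bot] at h3
  linarith

theorem dm_pyr [FiniteDimensional ℝ E] [Nonempty ι] {V : ι → E} {a : E}
    (ha : a ∉ affineSpan ℝ (Set.range V)) : dm (pyr V a) = dm V + 1 := by
  obtain ⟨i0⟩ := ‹Nonempty ι›
  unfold dm
  rw [range_pyr]
  have h0 : V i0 ∈ affineSpan ℝ (Set.range V) := mem_affineSpan ℝ (Set.mem_range_self i0)
  have h1 : vectorSpan ℝ (insert a (Set.range V)) = vectorSpan ℝ (Set.range V) ⊔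
      Submodule.span ℝ {a - V i0} := by
    rw [← direction_affineSpan, ← affineSpan_insert_affineSpan,
      AffineSubspace.direction_affineSpan_insert h0, direction_affineSpan, sup_comm]
    rfl
  rw [h1]
  apply Submodule.finrank_sup_span_singleton
  intro hmem
  apply ha
  have h2 := AffineSubspace.vadd_mem_of_mem_direction (s := affineSpan ℝ (Set.range V))
    (by rw [direction_affineSpan]; exact hmem) h0
  simpa using h2

/-- functional on the product -/
noncomputable def ev (l : E →ₗ[ℝ] ℝ) (c : ℝ) : E × ℝ →ₗ[ℝ] ℝ :=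
  l.comp (LinearMap.fst ℝ E ℝ) + c • LinearMap.snd ℝ E ℝ

theorem ev_apply (l : E →ₗ[ℝ] ℝ) (c : ℝ) (x : E) (t : ℝ) : ev l c (x, t) = l x + c * t := rfl

/-- the double cap -/
def dcap (V : ι → E) (z : E) : Option (Option ι) → E × ℝ :=
  pyr (pyr (fun i => (V i, (0 : ℝ))) (z, 1)) (z, -1)

theorem conf_dcap {V : ι → E} {z : E} (hA : ∃ l : E →ₗ[ℝ] ℝ, ∀ i, l (V i) < l z)
    (hB : ∀ i, ∃ l : E →ₗ[ℝ] ℝ, (∀ j, j ≠ i → l (V j) < l (V i)) ∧ l z < l (V i)) :
    Conf (dcap V z) := by
  obtain ⟨l, hl⟩ := hA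
  rintro (_ | _ | i)
  · refine ⟨ev l (-1), ?_⟩
    rintro (_ | _ | j) hj
    · exact absurd rfl hj
    · show ev l (-1) (z, 1) < ev l (-1) (z, -1)
      rw [ev_apply, ev_apply]; linarith
    · show ev l (-1) (V j, 0) < ev l (-1) (z, -1)
      rw [ev_apply, ev_apply]; have := hl j; linarith
  · refine ⟨ev l 1, ?_⟩
    rintro (_ | _ | j) hj
    · show ev l 1 (z, -1) < ev l 1 (z, 1)
      rw [ev_apply, ev_apply]; linarith
    · exact absurd rfl hj
    · show ev l 1 (V j, 0) < ev l 1 (z, 1)
      rw [ev_apply, ev_apply]; have := hl j; linarith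
  · obtain ⟨g, hg, hgz⟩ := hB i
    refine ⟨ev g 0, ?_⟩
    rintro (_ | _ | j) hj
    · show ev g 0 (z, -1) < ev g 0 (V i, 0)
      rw [ev_apply, ev_apply]; linarith
    · show ev g 0 (z, 1) < ev g 0 (V i, 0)
      rw [ev_apply, ev_apply]; linarith
    · show ev g 0 (V j, 0) < ev g 0 (V i, 0)
      rw [ev_apply, ev_apply]
      have := hg j (fun h => hj (by rw [h]))
      linarith

theorem gr_dcap {V : ι → E} {z : E} (hA : ∃ l : E →ₗ[ℝ] ℝ, ∀ i, l (V i) < l z)
    (hB : ∀ i, ∃ l : E →ₗ[ℝ] ℝ, (∀ j, j ≠ i → l (V j) < l (V i)) ∧ l z < l (V i))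
    (hC : ∀ i j, (gr V).Adj i j → ∃ l : E →ₗ[ℝ] ℝ, l (V i) = l (V j) ∧
      (∀ k, k ≠ i → k ≠ j → l (V k) < l (V i)) ∧ l z < l (V i)) :
    gr (dcap V z) = cone (cone (gr V)) := by
  have k1 : (gr (dcap V z)).Adj none (some none) := by
    obtain ⟨l, hl⟩ := hA
    refine ⟨by simp, ev l 0, ?_, ?_⟩
    · show ev l 0 (z, -1) = ev l 0 (z, 1)
      rw [ev_apply, ev_apply]; ring
    · rintro (_ | _ | j) hj hj'
      · exact absurd rfl hj
      · exact absurd rfl hj'
      · show ev l 0 (V j, 0) < ev l 0 (z, -1)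
        rw [ev_apply, ev_apply]; have := hl j; linarith
  have k2 : ∀ i, (gr (dcap V z)).Adj none (some (some i)) := by
    intro i
    obtain ⟨g, hg, hgz⟩ := hB i
    refine ⟨by simp, ev g (g z - g (V i)), ?_, ?_⟩
    · show ev g _ (z, -1) = ev g _ (V i, 0)
      rw [ev_apply, ev_apply]; ring
    · rintro (_ | _ | j) hj hj'
      · exact absurd rfl hj
      · show ev g _ (z, 1) < ev g _ (z, -1)
        rw [ev_apply, ev_apply]; linarith
      · show ev g _ (V j, 0) < ev g _ (z, -1)
        rw [ev_apply, ev_apply]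
        have := hg j (fun h => hj' (by rw [h]))
        linarith
  have k3 : ∀ i, (gr (dcap V z)).Adj (some none) (some (some i)) := by
    intro i
    obtain ⟨g, hg, hgz⟩ := hB i
    refine ⟨by simp, ev g (g (V i) - g z), ?_, ?_⟩
    · show ev g _ (z, 1) = ev g _ (V i, 0)
      rw [ev_apply, ev_apply]; ring
    · rintro (_ | _ | j) hj hj'
      · show ev g _ (z, -1) < ev g _ (z, 1)
        rw [ev_apply, ev_apply]; linarith
      · exact absurd rfl hj
      · show ev g _ (V j, 0) < ev g _ (z, 1)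
        rw [ev_apply, ev_apply]
        have := hg j (fun h => hj' (by rw [h]))
        linarith
  ext x y
  rcases x with _ | _ | i <;> rcases y with _ | _ | j
  · exact ⟨fun hh => absurd rfl hh.1, fun hh => hh.elim⟩
  · exact ⟨fun _ => trivial, fun _ => k1⟩
  · exact ⟨fun _ => trivial, fun _ => k2 j⟩
  · exact ⟨fun _ => trivial, fun _ => k1.symm⟩
  · exact ⟨fun hh => absurd rfl hh.1, fun hh => hh.elim⟩
  · exact ⟨fun _ => trivial, fun _ => k3 j⟩
  · exact ⟨fun _ => trivial, fun _ => (k2 i).symm⟩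
  · exact ⟨fun _ => trivial, fun _ => (k3 i).symm⟩
  · constructor
    · rintro ⟨hne, L, h1, h2⟩
      refine ⟨fun hij => hne (by rw [hij]), L.comp (LinearMap.inl ℝ E ℝ), h1, fun k hk hk' => ?_⟩
      exact h2 (some (some k)) (fun hh => hk (Option.some_injective _ (Option.some_injective _ hh)))
        (fun hh => hk' (Option.some_injective _ (Option.some_injective _ hh)))
    · intro hadj
      obtain ⟨l, h1, h2, h3⟩ := hC i j hadj
      refine ⟨fun hij => hadj.1 (Option.some_injective _ (Option.some_injective _ hij)),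
        ev l 0, ?_, ?_⟩
      · show ev l 0 (V i, 0) = ev l 0 (V j, 0)
        rw [ev_apply, ev_apply, h1]
      · rintro (_ | _ | k) hk hk'
        · show ev l 0 (z, -1) < ev l 0 (V i, 0)
          rw [ev_apply, ev_apply]; linarith
        · show ev l 0 (z, 1) < ev l 0 (V i, 0)
          rw [ev_apply, ev_apply]; linarith
        · show ev l 0 (V k, 0) < ev l 0 (V i, 0)
          rw [ev_apply, ev_apply]
          have := h2 k (fun h => hk (by rw [h])) (fun h => hk' (by rw [h]))
          linarith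

theorem dm_dcap [FiniteDimensional ℝ E] [Nonempty ι] {V : ι → E} {z : E}
    (hz : z ∈ affineSpan ℝ (Set.range V)) : dm (dcap V z) = dm V + 1 := by
  have h0 : dm (fun i => (V i, (0 : ℝ))) = dm V :=
    dm_comp V (LinearMap.inl ℝ E ℝ) LinearMap.inl_injective
  have h1 : (z, (1 : ℝ)) ∉ affineSpan ℝ (Set.range (fun i => (V i, (0 : ℝ)))) :=
    notMem_of_height (LinearMap.snd ℝ E ℝ) 0 (fun i => rfl) (by simp)
  have h2 := dm_pyr h1
  rw [h0] at h2
  rw [← h2]
  unfold dm dcap
  rw [range_pyr]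
  have h3 : (z, (0 : ℝ)) ∈ affineSpan ℝ (Set.range (fun i => (V i, (0 : ℝ)))) := by
    have h4 : Set.range (fun i => (V i, (0 : ℝ))) =
        (LinearMap.inl ℝ E ℝ).toAffineMap '' Set.range V := by
      rw [← Set.range_comp]; rfl
    rw [h4, ← AffineSubspace.map_span]
    exact ⟨z, hz, rfl⟩
  have h5 : (z, (-1 : ℝ)) ∈ affineSpan ℝ (Set.range (pyr (fun i => (V i, (0 : ℝ))) (z, 1))) := by
    have h6 : (z, (0 : ℝ)) ∈ affineSpan ℝ (Set.range (pyr (fun i => (V i, (0 : ℝ))) (z, 1))) := by
      apply affineSpan_mono ℝ _ h3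
      rw [range_pyr]
      exact Set.subset_insert _ _
    have h7 : (z, (1 : ℝ)) ∈ affineSpan ℝ (Set.range (pyr (fun i => (V i, (0 : ℝ))) (z, 1))) :=
      mem_affineSpan ℝ ⟨none, rfl⟩
    have h8 := AffineMap.lineMap_mem (-1 : ℝ) h6 h7
    have h9 : AffineMap.lineMap (z, (0 : ℝ)) (z, (1 : ℝ)) (-1 : ℝ) = (z, (-1 : ℝ)) := by
      simp [AffineMap.lineMap_apply]
    rw [h9] at h8
    exact h8
  rw [vectorSpan_insert_eq_vectorSpan h5]

end Pool.Agent.Q223.PG
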