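import Mathlib
import Pool.Agent.Q223.PG.Conf

/-!
# A point just beyond one face with at least three vertices
-/

set_option autoImplicit false

namespace Pool.Agent.Q223.PG

open Module Filter Topology

variable {ι E : Type*} [AddCommGroup E] [Module ℝ E]

/-- `S` is the vertex set of a proper exposed face -/
def PF (V : ι → E) (S : Set ι) : Prop :=
  ∃ (l : E →ₗ[ℝ] ℝ) (c : ℝ), (∀ i, i ∈ S → l (V i) = c) ∧ (∀ i, i ∉ S → l (V i) < c) ∧ ∃ k, k ∉ S

theorem PF.step [Finite ι] [FiniteDimensional ℝ E] {V : ι → E} (hd : 3 ≤ dm V) {S : Set ι}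
    (hS : PF V S) {i0 : ι} (hi0 : i0 ∈ S) (hcard : S.ncard ≤ 2) :
    ∃ S', PF V S' ∧ i0 ∈ S' ∧ S.ncard < S'.ncard := by
  classical
  cases nonempty_fintype ι
  obtain ⟨l, c, hl1, hl2, hl3⟩ := hS
  set W := vectorSpan ℝ (Set.range V) with hW
  set D := vectorSpan ℝ (V '' S) with hD
  have hDr : finrank ℝ D ≤ 1 := by
    have h1 : (S.toFinset : Finset ι).card = (S.toFinset.card - 1) + 1 := by
      have : 0 < S.toFinset.card := Finset.card_pos.2 ⟨i0, by simpa using hi0⟩
      omega
    have h2 := finrank_vectorSpan_image_finset_le ℝ V S.toFinset h1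
    have h3 : (↑(S.toFinset.image V) : Set E) = V '' S := by
      rw [Finset.coe_image]; simp
    rw [h3] at h2
    have h4 : S.toFinset.card ≤ 2 := by
      rw [← Set.ncard_eq_toFinset_card']; exact hcard
    exact h2.trans (by omega)
  -- a vector in the kernel of l, not in D
  have hu : ∃ u ∈ W, l u = 0 ∧ u ∉ D := by
    by_contra hcon
    push Not at hcon
    have h1 : (LinearMap.ker (l.domRestrict W)).map W.subtype ≤ D := by
      rintro _ ⟨⟨w, hw⟩, hk, rfl⟩
      exact hcon w hw hk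
    have h2 : finrank ℝ (LinearMap.ker (l.domRestrict W)) ≤ 1 := by
      have h3 := Submodule.finrank_mono h1
      rw [Submodule.finrank_map_subtype_eq] at h3
      exact h3.trans hDr
    have h3 := LinearMap.finrank_range_add_finrank_ker (l.domRestrict W)
    have h4 : finrank ℝ (LinearMap.range (l.domRestrict W)) ≤ 1 := by
      have := Submodule.finrank_le (LinearMap.range (l.domRestrict W))
      simpa using this
    have h5 : 3 ≤ finrank ℝ W := hd
    omega
  obtain ⟨u, huW, hlu, huD⟩ := hu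
  obtain ⟨g0, hg0, hgk0⟩ := Submodule.exists_le_ker_of_notMem huD
  -- choice of the sign
  have hsign : ∃ g : E →ₗ[ℝ] ℝ, g u ≠ 0 ∧ D ≤ LinearMap.ker g ∧ ∃ k, g (V i0) < g (V k) := by
    by_cases h : ∃ k, g0 (V i0) < g0 (V k)
    · exact ⟨g0, hg0, hgk0, h⟩
    · by_cases h' : ∃ k, g0 (V k) < g0 (V i0)
      · obtain ⟨k, hk⟩ := h'
        refine ⟨-g0, by simpa using hg0, fun x hx => ?_, k, by simpa using hk⟩
        have := hgk0 hx
        rw [LinearMap.mem_ker] at this ⊢
        simp [this]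
      · exfalso
        push Not at h h'
        have h1 : W ≤ LinearMap.ker g0 := by
          rw [hW, vectorSpan_def, Submodule.span_le]
          rintro _ ⟨_, ⟨i, rfl⟩, _, ⟨j, rfl⟩, rfl⟩
          show g0 (V i - V j) = 0
          rw [map_sub, le_antisymm (h i) (h' i), le_antisymm (h j) (h' j), sub_self]
        exact hg0 (h1 huW)
  obtain ⟨g, hgu, hgD, k1, hk1⟩ := hsign
  have hgS : ∀ k ∈ S, g (V k) = g (V i0) := by
    intro k hk
    have h1 : V k - V i0 ∈ D := vsub_mem_vectorSpan ℝ (Set.mem_image_of_mem V hk)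
      (Set.mem_image_of_mem V hi0)
    have h2 := hgD h1
    rw [LinearMap.mem_ker, map_sub] at h2
    linarith
  have hle : ∀ k, l (V k) ≤ c := fun k => by
    by_cases hk : k ∈ S
    · exact (hl1 k hk).le
    · exact (hl2 k hk).le
  -- minimal ratio
  obtain ⟨m, hm, hmin⟩ := Finset.exists_min_image
    (Finset.univ.filter fun k => g (V i0) < g (V k))
    (fun k => (c - l (V k)) / (g (V k) - g (V i0))) ⟨k1, by simpa using hk1⟩
  rw [Finset.mem_filter] at hm
  have hmg : 0 < g (V m) - g (V i0) := sub_pos.2 hm.2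
  set t := (c - l (V m)) / (g (V m) - g (V i0)) with ht
  have hmS : m ∉ S := by
    intro hmS
    have := hgS m hmS
    linarith [hm.2]
  have ht0 : 0 < t := div_pos (sub_pos.2 (hl2 m hmS)) hmg
  have htm : t * (g (V m) - g (V i0)) = c - l (V m) := div_mul_cancel₀ _ hmg.ne'
  have hall : ∀ k, l (V k) + t * g (V k) ≤ c + t * g (V i0) := by
    intro k
    by_cases hk : g (V i0) < g (V k)
    · have h1 := hmin k (by simpa using hk)
      have h2 : 0 < g (V k) - g (V i0) := sub_pos.2 hk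
      have h3 : t ≤ (c - l (V k)) / (g (V k) - g (V i0)) := h1
      rw [le_div_iff₀ h2] at h3
      linarith
    · push Not at hk
      have := hle k
      have h4 : t * g (V k) ≤ t * g (V i0) := mul_le_mul_of_nonneg_left hk ht0.le
      linarith
  refine ⟨{k | l (V k) + t * g (V k) = c + t * g (V i0)}, ⟨l + t • g, c + t * g (V i0), ?_, ?_, ?_⟩,
    ?_, ?_⟩
  · intro k hk; exact hk
  · intro k hk; exact lt_of_le_of_ne (hall k) hk
  · by_contra hcon
    push Not at hcon
    have hcon' : ∀ k, (l + t • g) (V k) = c + t * g (V i0) := hcon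
    have h1 : W ≤ LinearMap.ker (l + t • g) := by
      rw [hW, vectorSpan_def, Submodule.span_le]
      rintro _ ⟨_, ⟨i, rfl⟩, _, ⟨j, rfl⟩, rfl⟩
      show (l + t • g) (V i - V j) = 0
      rw [map_sub, hcon', hcon', sub_self]
    have h2 := h1 huW
    rw [LinearMap.mem_ker] at h2
    have h3 : l u + t * g u = 0 := h2
    rw [hlu, zero_add] at h3
    rcases mul_eq_zero.1 h3 with h4 | h4
    · exact ht0.ne' h4
    · exact hgu h4
  · show l (V i0) + t * g (V i0) = c + t * g (V i0)
    rw [hl1 i0 hi0]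
  · apply Set.ncard_lt_ncard _ (Set.toFinite _)
    refine ⟨fun k hk => ?_, fun hsub => hmS (hsub ?_)⟩
    · show l (V k) + t * g (V k) = c + t * g (V i0)
      rw [hl1 k hk, hgS k hk]
    · show l (V m) + t * g (V m) = c + t * g (V i0)
      linarith

theorem exists_PF [Finite ι] [FiniteDimensional ℝ E] {V : ι → E} (hV : Conf V) (hd : 3 ≤ dm V) :
    ∃ S, PF V S ∧ 3 ≤ S.ncard := by
  have hnt : ∃ i j : ι, V i ≠ V j := by
    by_contra hcon
    push Not at hcon
    have h1 : vectorSpan ℝ (Set.range V) = ⊥ := by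
      rw [vectorSpan_eq_bot_iff_subsingleton]
      rintro _ ⟨i, rfl⟩ _ ⟨j, rfl⟩
      exact hcon i j
    unfold dm at hd
    rw [h1] at hd
    simp at hd
  obtain ⟨i0, j0, hij⟩ := hnt
  have hij' : j0 ≠ i0 := fun h => hij (by rw [h])
  have h1 : PF V {i0} := by
    obtain ⟨l, hl⟩ := hV i0
    exact ⟨l, l (V i0), fun i hi => by rw [hi], fun i hi => hl i hi, j0, hij'⟩
  have key : ∀ n, n ≤ 2 → ∃ S, PF V S ∧ i0 ∈ S ∧ n + 1 ≤ S.ncard := by
    intro n
    induction n with
    | zero => intro _; exact ⟨{i0}, h1, rfl, by simp⟩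
    | succ n ih =>
      intro hn
      obtain ⟨S, hS, hi, hc⟩ := ih (by omega)
      by_cases h3 : n + 1 + 1 ≤ S.ncard
      · exact ⟨S, hS, hi, h3⟩
      · obtain ⟨S', hS', hi', hc'⟩ := hS.step hd hi (by omega)
        exact ⟨S', hS', hi', by omega⟩
  obtain ⟨S, hS, -, hc⟩ := key 2 le_rfl
  exact ⟨S, hS, hc⟩

theorem exists_z [Finite ι] [FiniteDimensional ℝ E] {V : ι → E} (hV : Conf V) (hd : 3 ≤ dm V) :
    ∃ z ∈ affineSpan ℝ (Set.range V), (∃ l : E →ₗ[ℝ] ℝ, ∀ i, l (V i) < l z) ∧
      (∀ i, ∃ l : E →ₗ[ℝ] ℝ, (∀ j, j ≠ i → l (V j) < l (V i)) ∧ l z < l (V i)) ∧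
      (∀ i j, (gr V).Adj i j → ∃ l : E →ₗ[ℝ] ℝ, l (V i) = l (V j) ∧
        (∀ k, k ≠ i → k ≠ j → l (V k) < l (V i)) ∧ l z < l (V i)) := by
  classical
  obtain ⟨S, ⟨l, c, hl1, hl2, k0, hk0⟩, hc⟩ := exists_PF hV hd
  obtain ⟨i1, i2, i3, h1, h2, h3, h12, h13, h23⟩ := Set.two_lt_ncard_iff (Set.toFinite S) |>.1 hc
  have hle : ∀ k, l (V k) ≤ c := fun k => by
    by_cases hk : k ∈ S
    · exact (hl1 k hk).le
    · exact (hl2 k hk).le
  obtain ⟨x, hx⟩ : ∃ x : E, x = (1 / 3 : ℝ) • (V i1 + V i2 + V i3) := ⟨_, rfl⟩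
  have hxl : ∀ f : E →ₗ[ℝ] ℝ, f x = (f (V i1) + f (V i2) + f (V i3)) / 3 := by
    intro f
    rw [hx, map_smul, map_add, map_add, smul_eq_mul]; ring
  have hlx : l x = c := by
    rw [hxl, hl1 _ h1, hl1 _ h2, hl1 _ h3]; ring
  -- exposing functionals
  choose f hf using hV
  have hfx : ∀ i, f i x < f i (V i) := by
    intro i
    rw [hxl]
    have hle' : ∀ j, f i (V j) ≤ f i (V i) := fun j => by
      by_cases hj : j = i
      · rw [hj]
      · exact (hf i j hj).le
    by_cases hi : i1 = i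
    · have := hf i i2 (fun h => h12 (hi.trans h.symm))
      linarith [hle' i1, hle' i3]
    · have := hf i i1 hi
      linarith [hle' i2, hle' i3]
  have hE : ∀ i j, ∃ e : E →ₗ[ℝ] ℝ, (gr V).Adj i j → e (V i) = e (V j) ∧
      (∀ k, k ≠ i → k ≠ j → e (V k) < e (V i)) := by
    intro i j
    by_cases h : (gr V).Adj i j
    · obtain ⟨-, e, he⟩ := h
      exact ⟨e, fun _ => he⟩
    · exact ⟨0, fun h' => absurd h' h⟩
  choose e he using hE
  have hex : ∀ i j, (gr V).Adj i j → e i j x < e i j (V i) := by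
    intro i j hadj
    obtain ⟨ha, hb⟩ := he i j hadj
    rw [hxl]
    have hle' : ∀ k, e i j (V k) ≤ e i j (V i) := fun k => by
      by_cases hk : k = i
      · rw [hk]
      · by_cases hk' : k = j
        · rw [hk', ha]
        · exact (hb k hk hk').le
    have hone : ∃ k, (k = i1 ∨ k = i2 ∨ k = i3) ∧ k ≠ i ∧ k ≠ j := by
      by_contra hcon
      push Not at hcon
      have e1 := hcon i1 (Or.inl rfl)
      have e2 := hcon i2 (Or.inr (Or.inl rfl))
      have e3 := hcon i3 (Or.inr (Or.inr rfl))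
      by_cases a1 : i1 = i
      · have a2 : i2 = j := e2 (fun h => h12 (a1.trans h.symm))
        have a3 : i3 = j := e3 (fun h => h13 (a1.trans h.symm))
        exact h23 (a2.trans a3.symm)
      · have b1 : i1 = j := e1 a1
        by_cases a2 : i2 = i
        · have a3 : i3 = j := e3 (fun h => h23 (a2.trans h.symm))
          exact h13 (b1.trans a3.symm)
        · exact h12 (b1.trans (e2 a2).symm)
    obtain ⟨k, hk, hki, hkj⟩ := hone
    have := hb k hki hkj
    rcases hk with rfl | rfl | rfl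
    · linarith [hle' i2, hle' i3]
    · linarith [hle' i1, hle' i3]
    · linarith [hle' i1, hle' i2]
  -- the point
  obtain ⟨p, hp⟩ : ∃ p : E, p = x - V k0 := ⟨_, rfl⟩
  have hlim : ∀ (g : E →ₗ[ℝ] ℝ) (r : ℝ), g x < r → ∀ᶠ ε in 𝓝[>] (0 : ℝ), g (x + ε • p) < r := by
    intro g r hg
    have h1 : Continuous (fun ε : ℝ => g (x + ε • p)) := by
      have : (fun ε : ℝ => g (x + ε • p)) = fun ε => g x + ε * g p := by
        ext ε; rw [map_add, map_smul, smul_eq_mul]
      rw [this]; fun_prop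
    have h2 : ∀ᶠ ε in 𝓝 (0 : ℝ), g (x + ε • p) < r :=
      h1.continuousAt.eventually_lt continuousAt_const (by simpa using hg)
    exact h2.filter_mono nhdsWithin_le_nhds
  have hall : ∀ᶠ ε in 𝓝[>] (0 : ℝ), (∀ i, f i (x + ε • p) < f i (V i)) ∧
      (∀ i j, (gr V).Adj i j → e i j (x + ε • p) < e i j (V i)) := by
    apply Filter.Eventually.and
    · exact Filter.eventually_all.2 fun i => hlim _ _ (hfx i)
    · refine Filter.eventually_all.2 fun i => Filter.eventually_all.2 fun j => ?_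
      by_cases h : (gr V).Adj i j
      · exact (hlim _ _ (hex i j h)).mono fun ε hε _ => hε
      · exact Filter.Eventually.of_forall fun ε h' => absurd h' h
  obtain ⟨ε, ⟨hε1, hε2⟩, hε⟩ := (hall.and self_mem_nhdsWithin).exists
  have hε : 0 < ε := hε
  refine ⟨x + ε • p, ?_, ⟨l, fun i => ?_⟩, fun i => ⟨f i, hf i, hε1 i⟩,
    fun i j hadj => ⟨e i j, (he i j hadj).1, (he i j hadj).2, hε2 i j hadj⟩⟩
  · have hx' : x ∈ affineSpan ℝ (Set.range V) := by
      have hxc : x ∈ convexHull ℝ (Set.range V) := by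
        have h4 := (convex_convexHull ℝ (Set.range V)).sum_mem (t := Finset.univ)
          (w := fun _ : Fin 3 => (1 / 3 : ℝ)) (z := ![V i1, V i2, V i3]) (by intro i _; norm_num)
          (by simp) (by
            intro i _
            apply subset_convexHull
            fin_cases i
            · exact ⟨i1, rfl⟩
            · exact ⟨i2, rfl⟩
            · exact ⟨i3, rfl⟩)
        rw [Fin.sum_univ_three] at h4
        rw [hx, smul_add, smul_add]
        exact h4
      exact convexHull_subset_affineSpan _ hxc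
    have h5 := AffineMap.lineMap_mem (-ε) hx' (mem_affineSpan ℝ (Set.mem_range_self k0))
    have h6 : AffineMap.lineMap x (V k0) (-ε) = x + ε • p := by
      rw [AffineMap.lineMap_apply, hp]
      simp only [vsub_eq_sub, vadd_eq_add]
      rw [neg_smul, ← smul_neg, neg_sub, add_comm]
    rw [h6] at h5
    exact h5
  · rw [map_add, map_smul, smul_eq_mul, hlx, hp, map_sub, hlx]
    have := mul_pos hε (sub_pos.2 (hl2 k0 hk0))
    linarith [hle i]

end Pool.Agent.Q223.PG
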